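import Pool.Agent.L0h20.RS.GameDefs
import Pool.Agent.L0h20.RS.ExLin

/-!
# 2-to-1 games of small value which are locally consistent
-/

set_option autoImplicit false

open scoped Classical
open Finset

namespace Pool.Agent.L0h20.RS

open H589DT

section

variable {n D p : ℕ} [NeZero p]

/-- the constraint map of the pair `w`, `v` -/
noncomputable def bmap (φ : Fin n → Fin D → Fin n) (s : Fin n → Fin D → ZMod p) (w v : Fin n) :
    Fin (2 * p) → Fin p :=
  if h : ∃ i, φ w i = v then cmap p 2 ((h.choose : ℕ) : ZMod p) (s w h.choose) else cmap p 2 0 0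

/-- the game -/
noncomputable def baseGame (φ : Fin n → Fin D → Fin n) (B : Finset (Fin n))
    (s : Fin n → Fin D → ZMod p) : TGame (Fin n) (Fin n) (2 * p) where
  adj w v := w ∉ B ∧ ∃ i, φ w i = v
  map w v a := Fin.castLE (by omega) (bmap φ s w v a)
  fib w v h b := by
    have hf : ∀ a, (univ.filter fun b => bmap φ s w v b = a).card ≤ 2 := by
      intro a
      unfold bmap
      split_ifs
      · exact cmap_fib _ _ _
      · exact cmap_fib _ _ _
    by_cases hb : (b : ℕ) < p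
    · refine le_trans (card_le_card ?_) (hf ⟨b, hb⟩)
      intro a ha
      have h1 := (mem_filter.1 ha).2
      refine mem_filter.2 ⟨mem_univ _, ?_⟩
      apply Fin.ext
      have h2 := congrArg Fin.val h1
      simpa using h2
    · have : (univ.filter fun a => (Fin.castLE (by omega) (bmap φ s w v a) : Fin (2 * p)) = b) = ∅ := by
        apply filter_eq_empty_iff.2
        intro a _ ha
        have h2 := congrArg Fin.val ha
        simp only [Fin.val_castLE] at h2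
        exact hb (h2 ▸ (bmap φ s w v a).2)
      rw [this]
      simp

variable {φ : Fin n → Fin D → Fin n} {B : Finset (Fin n)} {s : Fin n → Fin D → ZMod p}

theorem bmap_eq (hφ : ∀ w i j, w ∉ B → φ w i = φ w j → i = j) {w : Fin n} (hw : w ∉ B)
    (i : Fin D) : bmap φ s w (φ w i) = cmap p 2 ((i : ℕ) : ZMod p) (s w i) := by
  unfold bmap
  have hex : ∃ j, φ w j = φ w i := ⟨i, rfl⟩
  rw [dif_pos hex]
  have := hφ w _ _ hw hex.choose_spec
  rw [this]

/-- the number of edges -/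
theorem card_edges (hφ : ∀ w i j, w ∉ B → φ w i = φ w j → i = j) :
    (univ.filter fun e : Fin n × Fin n => (baseGame φ B s).adj e.1 e.2).card =
      Fintype.card (EE D B) := by
  have h1 : (univ.filter fun e : Fin n × Fin n => (baseGame φ B s).adj e.1 e.2) =
      univ.image fun e : EE D B => (e.1.1, φ e.1.1 e.1.2) := by
    ext ⟨w, v⟩
    simp only [mem_filter, mem_univ, true_and, mem_image]
    constructor
    · rintro ⟨hw, i, hi⟩
      exact ⟨⟨(w, i), hw⟩, Prod.ext rfl hi⟩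
    · rintro ⟨⟨⟨w', i⟩, hw⟩, h⟩
      have h2 := (Prod.mk.inj h).1
      have h3 := (Prod.mk.inj h).2
      subst h2
      exact ⟨hw, i, h3⟩
  rw [h1, card_image_of_injective, card_univ]
  rintro ⟨⟨w1, i1⟩, hw1⟩ ⟨⟨w2, i2⟩, hw2⟩ h
  have h2 := (Prod.mk.inj h).1
  have h3 := (Prod.mk.inj h).2
  have h2' : w1 = w2 := h2
  subst h2'
  have h4 := hφ w1 i1 i2 hw1 h3
  subst h4
  rfl

/-- the value -/
theorem value_le (hφ : ∀ w i j, w ∉ B → φ w i = φ w j → i = j) {K : ℕ}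
    (hs : ∀ (x : Fin n → ZMod p × Fin 2) (y : Fin n → ZMod p),
      (univ.filter fun e : Fin n × Fin D => e.1 ∉ B ∧
        (x e.1).1 - ((e.2 : ℕ) : ZMod p) * (((x e.1).2 : ℕ) : ZMod p) + s e.1 e.2
          = y (φ e.1 e.2)).card < K) (A C : Fin n → Fin (2 * p)) :
    (univ.filter fun e : Fin n × Fin n => (baseGame φ B s).adj e.1 e.2 ∧
      (baseGame φ B s).map e.1 e.2 (A e.1) = C e.2).card ≤ K := by
  let x : Fin n → ZMod p × Fin 2 := fun w => (eW p 2).symm (A w)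
  let y : Fin n → ZMod p := fun v => if hv : (C v : ℕ) < p then (eV p).symm ⟨C v, hv⟩ else 0
  refine le_trans ?_ (hs x y).le
  have hsub : (univ.filter fun e : Fin n × Fin n => (baseGame φ B s).adj e.1 e.2 ∧
      (baseGame φ B s).map e.1 e.2 (A e.1) = C e.2) ⊆
      (univ.filter fun e : Fin n × Fin D => e.1 ∉ B ∧
        (x e.1).1 - ((e.2 : ℕ) : ZMod p) * (((x e.1).2 : ℕ) : ZMod p) + s e.1 e.2
          = y (φ e.1 e.2)).image fun e => (e.1, φ e.1 e.2) := by
    rintro ⟨w, v⟩ h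
    obtain ⟨⟨hw, i, hi⟩, hm⟩ := (mem_filter.1 h).2
    simp only at hw hi
    subst hi
    refine mem_image.2 ⟨(w, i), mem_filter.2 ⟨mem_univ _, hw, ?_⟩, rfl⟩
    have hm' : (Fin.castLE (by omega) (bmap φ s w (φ w i) (A w)) : Fin (2 * p)) = C (φ w i) := hm
    rw [bmap_eq hφ hw i] at hm'
    have hval : ((cmap p 2 ((i : ℕ) : ZMod p) (s w i) (A w) : Fin p) : ℕ) = C (φ w i) :=
      congrArg Fin.val hm'
    have hlt : (C (φ w i) : ℕ) < p := hval ▸ (cmap p 2 ((i : ℕ) : ZMod p) (s w i) (A w)).2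
    show ((eW p 2).symm (A w)).1 - ((i : ℕ) : ZMod p) * ((((eW p 2).symm (A w)).2 : ℕ) : ZMod p) +
      s w i = if hv : (C (φ w i) : ℕ) < p then (eV p).symm ⟨C (φ w i), hv⟩ else 0
    rw [dif_pos hlt, ← Equiv.apply_eq_iff_eq_symm_apply]
    exact Fin.ext hval
  exact (card_le_card hsub).trans card_image_le

/-- the labels of the game from those of the constraint graph -/
noncomputable def lab (ρ : Fin n ⊕ Fin n → ZMod p × Fin 2) : Fin n ⊕ Fin n → Fin (2 * p)
  | Sum.inl w => eW p 2 (ρ (Sum.inr w))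
  | Sum.inr v => Fin.castLE (by omega) (eV p (ρ (Sum.inl v)).1)

theorem swap_subset {S T : Finset (Fin n ⊕ Fin n)} (h : S ⊆ T) :
    S.map (Equiv.sumComm (Fin n) (Fin n)).toEmbedding ⊆
      T.map (Equiv.sumComm (Fin n) (Fin n)).toEmbedding := map_subset_map.2 h

/-- consistency -/
theorem consistent_of {l : ℕ} (hφ : ∀ w i j, w ∉ B → φ w i = φ w j → i = j)
    (F : Local (Fin n ⊕ Fin n) (ZMod p × Fin 2) l)
    (hF : ∀ S ρ, F.C S ρ → (gameGraph (d := 2) φ B s).SatOn S ρ) :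
    LocallyConsistent (baseGame φ B s) l := by
  let sw : Finset (Fin n ⊕ Fin n) → Finset (Fin n ⊕ Fin n) := fun S =>
    S.map (Equiv.sumComm (Fin n) (Fin n)).toEmbedding
  have hswl : ∀ (S : Finset (Fin n ⊕ Fin n)) (w : Fin n), Sum.inl w ∈ S → Sum.inr w ∈ sw S :=
    fun S w hw => mem_map.2 ⟨Sum.inl w, hw, rfl⟩
  have hswr : ∀ (S : Finset (Fin n ⊕ Fin n)) (v : Fin n), Sum.inr v ∈ S → Sum.inl v ∈ sw S :=
    fun S v hv => mem_map.2 ⟨Sum.inr v, hv, rfl⟩
  have hlab : ∀ (S : Finset (Fin n ⊕ Fin n)) (ρ ρ' : Fin n ⊕ Fin n → ZMod p × Fin 2),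
      (∀ x ∈ sw S, ρ' x = ρ x) → ∀ x ∈ S, lab ρ' x = lab ρ x := by
    intro S ρ ρ' h x hx
    rcases x with w | v
    · simp only [lab]
      rw [h _ (hswl S w hx)]
    · simp only [lab]
      rw [h _ (hswr S v hx)]
  refine ⟨fun S ρ' => ∃ ρ, F.C (sw S) ρ ∧ ∀ x ∈ S, ρ' x = lab ρ x, ?_, ?_, ?_, ?_⟩
  · obtain ⟨ρ, hρ⟩ := F.empty
    exact ⟨lab ρ, ρ, by simpa [sw] using hρ, fun x hx => rfl⟩
  · rintro S T ρ' hST ⟨ρ, h1, h2⟩
    exact ⟨ρ, F.mono _ _ ρ (swap_subset hST) h1, fun x hx => h2 x (hST hx)⟩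
  · rintro S T ρ' hST hT ⟨ρ, h1, h2⟩
    obtain ⟨ρ2, h3, h4⟩ := F.ext (sw S) (sw T) ρ (swap_subset hST)
      (by simpa [sw] using hT) h1
    exact ⟨lab ρ2, fun x hx => (hlab S ρ ρ2 h3 x hx).trans (h2 x hx).symm, ρ2, h4,
      fun x _ => rfl⟩
  · rintro S ρ' ⟨ρ, h1, h2⟩ w v hw hv ⟨hwB, i, hi⟩
    rw [h2 _ hw, h2 _ hv]
    subst hi
    have h3 := hF _ ρ h1 ⟨(w, i), hwB⟩ (mem_ein.2 ⟨hswr S _ hv, hswl S _ hw⟩)
    have h4 : (ρ (Sum.inr w)).1 - ((i : ℕ) : ZMod p) * (((ρ (Sum.inr w)).2 : ℕ) : ZMod p) + s w i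
        = (ρ (Sum.inl (φ w i))).1 := h3
    show (Fin.castLE (by omega) (bmap φ s w (φ w i) (eW p 2 (ρ (Sum.inr w)))) : Fin (2 * p)) =
      Fin.castLE (by omega) (eV p (ρ (Sum.inl (φ w i))).1)
    rw [bmap_eq hφ hwB i]
    congr 1
    unfold cmap
    rw [Equiv.symm_apply_apply, h4]

end

/-- **2-to-1 games of small value which are consistent on all sets of linear size.** -/
theorem exists_game (δ : ℝ) (hδ : 0 < δ) : ∃ q D K n0 : ℕ, 1 ≤ q ∧ 1 ≤ K ∧ ∀ n : ℕ, n0 ≤ n →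
    ∃ I : TGame (Fin n) (Fin n) q, TNo δ I ∧ (∀ u, {v | I.adj u v}.ncard ≤ D) ∧
      ∀ l : ℕ, K * l ≤ n → LocallyConsistent I l := by
  obtain ⟨p, D, hp, hkp, hDp, hD⟩ := choice_p 2 (Nat.ceil (8 / δ)) le_rfl
  set k := Nat.ceil (8 / δ) with hk
  have hp1 : 1 ≤ p := hp.one_lt.le
  have : NeZero p := ⟨hp.pos.ne'⟩
  set r := 2 * (2 * p) + 4 with hr
  set h := 3 * r with hh
  have hD1 : 1 ≤ D := by
    by_contra h0
    have : D = 0 := by omega
    rw [this, pow_zero] at hD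
    have : 1 ≤ 2 * p ^ 2 := Nat.mul_pos (by omega) (pow_pos hp.pos 2)
    omega
  obtain ⟨n0, hn0⟩ := ex_lin D (2 * h) r (by omega)
  refine ⟨2 * p, D, (8 * (6 * 2 ^ D)) ^ (2 * h) * (4 * (h + 1)), n0 + Nat.ceil (4 / δ) + 1,
    by omega, Nat.mul_pos (by positivity) (by omega), fun n hn => ?_⟩
  obtain ⟨φ, B, hB, hsp, hgi⟩ := hn0 n (by omega)
  have hφ := phi_inj (fun S hS hS2 => hgi S hS (hS2.trans (by omega)))
  have hEE := card_EE (D := D) B
  have hE2 : n * D ≤ 2 * Fintype.card (EE D B) := by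
    rw [hEE]
    calc n * D ≤ (2 * (n - B.card)) * D := Nat.mul_le_mul_right _ (by omega)
      _ = _ := by ring
  set EC := Fintype.card (EE D B) with hEC
  set K := Nat.ceil (δ * EC / 2) with hK
  have hECr : (2 : ℝ) / δ ≤ EC := by
    have h1 : (4 / δ : ℝ) ≤ n := (Nat.le_ceil _).trans (Nat.cast_le.2 (by omega))
    have h2 : n ≤ 2 * EC := (Nat.le_mul_of_pos_right n hD1).trans hE2
    have h3 : (n : ℝ) ≤ 2 * EC := by exact_mod_cast h2
    have h4 : (4 / δ : ℝ) = 2 * (2 / δ) := by ring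
    linarith
  have hKle : (K : ℝ) ≤ δ * EC := by
    have h1 : (K : ℝ) < δ * EC / 2 + 1 := Nat.ceil_lt_add_one (by positivity)
    have h2 : 2 ≤ EC * δ := (div_le_iff₀ hδ).1 hECr
    nlinarith
  have hpK : (2 * p ^ 2) ^ n * 2 ^ (D * n) < p ^ K := by
    have h1 : 2 * (D * n) ≤ k * K := by
      have h2 : (8 / δ : ℝ) ≤ k := Nat.le_ceil _
      have h3 : δ * EC / 2 ≤ (K : ℝ) := Nat.le_ceil _
      have h4 : (4 * EC : ℝ) ≤ k * K := by
        calc (4 * EC : ℝ) = (8 / δ) * (δ * EC / 2) := by field_simp; ring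
          _ ≤ k * K := mul_le_mul h2 h3 (by positivity) (by positivity)
      have h5 : (4 * EC : ℕ) ≤ k * K := by exact_mod_cast h4
      calc 2 * (D * n) = 2 * (n * D) := by ring
        _ ≤ 2 * (2 * EC) := Nat.mul_le_mul_left _ hE2
        _ = 4 * EC := by ring
        _ ≤ _ := h5
    have hn1 : n ≠ 0 := by omega
    calc (2 * p ^ 2) ^ n * 2 ^ (D * n) < (2 ^ D) ^ n * 2 ^ (D * n) := by
          apply Nat.mul_lt_mul_of_pos_right _ (by positivity)
          exact Nat.pow_lt_pow_left hD hn1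
      _ = 2 ^ (2 * (D * n)) := by rw [← pow_mul, two_mul, pow_add]
      _ ≤ 2 ^ (k * K) := Nat.pow_le_pow_right (by norm_num) h1
      _ = (2 ^ k) ^ K := by rw [pow_mul]
      _ ≤ p ^ K := Nat.pow_le_pow_left hkp K
  obtain ⟨s, hs⟩ := t_SH n D p 2 K hp1 φ B hpK
  refine ⟨baseGame φ B s, ⟨?_, fun A C => ?_⟩, fun u => ?_, fun l hl => ?_⟩
  · -- there is an edge
    have hpos : 0 < Fintype.card (EE D B) := by
      have h1 : (0 : ℝ) < EC := lt_of_lt_of_le (by positivity) hECr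
      exact_mod_cast h1
    obtain ⟨⟨⟨w, i⟩, hw⟩⟩ := Fintype.card_pos_iff.1 hpos
    exact ⟨w, φ w i, hw, i, rfl⟩
  · rw [card_edges hφ]
    refine le_trans ?_ hKle
    exact_mod_cast value_le hφ hs A C
  · have hsub : {v | (baseGame φ B s).adj u v} ⊆ ((univ : Finset (Fin D)).image (φ u) :
        Finset (Fin n)) := by
      rintro v ⟨-, i, hi⟩
      exact mem_coe.2 (mem_image.2 ⟨i, mem_univ _, hi⟩)
    refine (Set.ncard_le_ncard hsub (finite_toSet _)).trans ?_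
    rw [Set.ncard_coe_finset]
    exact card_image_le.trans (by rw [card_univ, Fintype.card_fin])
  · -- local consistency
    set G := gameGraph (d := 2) φ B s with hG
    have hGgirth : G.Girth r := fun S hS hSr => lt_of_le_of_lt (ein_le φ B s S) (hgi S hS hSr)
    have hGsparse : G.Sparse (2 * h) (4 * (h + 1) * l) := by
      intro S hS
      refine (ein_le φ B s S).trans (hsp S ?_)
      calc (8 * (6 * 2 ^ D)) ^ (2 * h) * S.card
          ≤ (8 * (6 * 2 ^ D)) ^ (2 * h) * (4 * (h + 1) * l) := Nat.mul_le_mul_left _ hS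
        _ = (8 * (6 * 2 ^ D)) ^ (2 * h) * (4 * (h + 1)) * l := by ring
        _ ≤ n := hl
    obtain ⟨F, hF⟩ := lo_all _ _ _ G r h (4 * (h + 1) * l) l (by omega) le_rfl
      (gameGraph_surj (by omega) φ B s) (t_MX n D p 2 hp hDp le_rfl φ B s) hGgirth hGsparse le_rfl
    exact consistent_of hφ F hF

end Pool.Agent.L0h20.RS
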