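import Mathlib

/-!
# Resolution: width, size and space

A literal is a pair of a variable and a truth value, a clause is a finite set of literals.
-/

set_option autoImplicit false

open Finset

namespace Pool.Agent.L0h20.RS

variable {X : Type} [DecidableEq X]

/-- `C` follows from `C₁` and `C₂` by the resolution rule for some variable `y` (and weakening): `C₁` is
contained in `C ∨ y` and `C₂` in `C ∨ ¬y`. -/
def Resolves (C₁ C₂ C : Finset (X × Bool)) : Prop :=
  ∃ y : X, C₁ ⊆ insert (y, true) C ∧ C₂ ⊆ insert (y, false) C

/-- `l` is a resolution derivation from the axioms `F` (last clause first): each clause is (a weakening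
of) an axiom or follows from two earlier clauses. -/
inductive Derives (F : Set (Finset (X × Bool))) : List (Finset (X × Bool)) → Prop
  | nil : Derives F []
  | axm {l : List (Finset (X × Bool))} {A C : Finset (X × Bool)} :
      Derives F l → A ∈ F → A ⊆ C → Derives F (C :: l)
  | res {l : List (Finset (X × Bool))} {C₁ C₂ C : Finset (X × Bool)} :
      Derives F l → C₁ ∈ l → C₂ ∈ l → Resolves C₁ C₂ C → Derives F (C :: l)

/-- `M` is the contents of the memory at some time of a resolution derivation from the axioms `F` in
which there are never more than `s` clauses in the memory: an axiom is downloaded, a consequence of two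
clauses in the memory is added, or clauses are erased. -/
inductive Memory (F : Set (Finset (X × Bool))) (s : ℕ) : Finset (Finset (X × Bool)) → Prop
  | empty : Memory F s ∅
  | download {M : Finset (Finset (X × Bool))} {A : Finset (X × Bool)} :
      Memory F s M → A ∈ F → (insert A M).card ≤ s → Memory F s (insert A M)
  | infer {M : Finset (Finset (X × Bool))} {C₁ C₂ C : Finset (X × Bool)} :
      Memory F s M → C₁ ∈ M → C₂ ∈ M → Resolves C₁ C₂ C → (insert C M).card ≤ s →
      Memory F s (insert C M)
  | erase {M M' : Finset (Finset (X × Bool))} : Memory F s M → M' ⊆ M → Memory F s M'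

/-- Clauses with derivations of width at most `w`. -/
inductive Der (w : ℕ) (F : Set (Finset (X × Bool))) : Finset (X × Bool) → Prop
  | axm {A C : Finset (X × Bool)} : A ∈ F → A ⊆ C → C.card ≤ w → Der w F C
  | res {C₁ C₂ C : Finset (X × Bool)} : Der w F C₁ → Der w F C₂ → Resolves C₁ C₂ C → C.card ≤ w →
      Der w F C

/-- the opposite literal -/
def neg (m : X × Bool) : X × Bool := (m.1, !m.2)

theorem neg_neg (m : X × Bool) : neg (neg m) = m := by simp [neg]

theorem neg_ne (m : X × Bool) : neg m ≠ m := by
  intro h
  have h1 := congrArg Prod.snd h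
  cases hm : m.2 <;> simp [neg, hm] at h1

/-- the axioms after the literal `m` has been made true -/
def restr (F : Set (Finset (X × Bool))) (m : X × Bool) : Set (Finset (X × Bool)) :=
  {A' | ∃ A ∈ F, m ∉ A ∧ A' = A.erase (neg m)}

/-- the clauses after the literal `m` has been made true -/
noncomputable def restrL (l : List (Finset (X × Bool))) (m : X × Bool) :
    List (Finset (X × Bool)) :=
  (l.filter fun C => decide (m ∉ C)).map fun C => C.erase (neg m)

theorem mem_restrL {l : List (Finset (X × Bool))} {m : X × Bool} {C' : Finset (X × Bool)} :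
    C' ∈ restrL l m ↔ ∃ C ∈ l, m ∉ C ∧ C.erase (neg m) = C' := by
  simp only [restrL, List.mem_map, List.mem_filter, decide_eq_true_eq]
  constructor
  · rintro ⟨C, ⟨h1, h2⟩, h3⟩
    exact ⟨C, h1, h2, h3⟩
  · rintro ⟨C, h1, h2, h3⟩
    exact ⟨C, ⟨h1, h2⟩, h3⟩

theorem restrL_cons_pos {l : List (Finset (X × Bool))} {m : X × Bool} {C : Finset (X × Bool)}
    (h : m ∈ C) : restrL (C :: l) m = restrL l m := by
  simp [restrL, h]

theorem restrL_cons_neg {l : List (Finset (X × Bool))} {m : X × Bool} {C : Finset (X × Bool)}
    (h : m ∉ C) : restrL (C :: l) m = C.erase (neg m) :: restrL l m := by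
  simp [restrL, h]

/-- resolution steps after a restriction -/
theorem Resolves.erase {C₁ C₂ C : Finset (X × Bool)} {m : X × Bool} {l : List (Finset (X × Bool))}
    (h : Resolves C₁ C₂ C) (hC : m ∉ C) (h1 : C₁ ∈ l) (h2 : C₂ ∈ l) :
    ∃ D₁ ∈ restrL l m, ∃ D₂ ∈ restrL l m, Resolves D₁ D₂ (C.erase (neg m)) := by
  obtain ⟨y, hy1, hy2⟩ := h
  -- a clause contained in `C ∨ z`, where `z` is not `m`
  have key : ∀ (D : Finset (X × Bool)) (z : X × Bool), D ∈ l → D ⊆ insert z C → z ≠ m →
      D.erase (neg m) ∈ restrL l m ∧ D.erase (neg m) ⊆ insert z (C.erase (neg m)) := by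
    intro D z hD hz hzm
    refine ⟨mem_restrL.2 ⟨D, hD, fun h => ?_, rfl⟩, fun x hx => ?_⟩
    · rcases mem_insert.1 (hz h) with h' | h'
      · exact hzm h'.symm
      · exact hC h'
    · obtain ⟨hx1, hx2⟩ := mem_erase.1 hx
      rcases mem_insert.1 (hz hx2) with h' | h'
      · exact mem_insert.2 (Or.inl h')
      · exact mem_insert.2 (Or.inr (mem_erase.2 ⟨hx1, h'⟩))
  by_cases hm : y = m.1
  · -- the variable of the restriction
    subst hm
    rcases hb : m.2 with _ | _
    · -- `m = (x, false)`: use the first clause
      have hm' : m = (m.1, false) := Prod.ext rfl hb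
      have hn : neg m = (m.1, true) := by simp [neg, hb]
      obtain ⟨k1, k2⟩ := key C₁ (m.1, true) h1 hy1 (by rw [hm']; simp)
      have k3 : C₁.erase (neg m) ⊆ C.erase (neg m) := by
        intro x hx
        rcases mem_insert.1 (k2 hx) with h' | h'
        · rw [← hn] at h'
          exact absurd h' (mem_erase.1 hx).1
        · exact h'
      exact ⟨_, k1, _, k1, m.1, k3.trans (subset_insert _ _), k3.trans (subset_insert _ _)⟩
    · have hm' : m = (m.1, true) := Prod.ext rfl hb
      have hn : neg m = (m.1, false) := by simp [neg, hb]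
      obtain ⟨k1, k2⟩ := key C₂ (m.1, false) h2 hy2 (by rw [hm']; simp)
      have k3 : C₂.erase (neg m) ⊆ C.erase (neg m) := by
        intro x hx
        rcases mem_insert.1 (k2 hx) with h' | h'
        · rw [← hn] at h'
          exact absurd h' (mem_erase.1 hx).1
        · exact h'
      exact ⟨_, k1, _, k1, m.1, k3.trans (subset_insert _ _), k3.trans (subset_insert _ _)⟩
  · obtain ⟨k1, k2⟩ := key C₁ (y, true) h1 hy1 (fun h => hm (congrArg Prod.fst h))
    obtain ⟨k3, k4⟩ := key C₂ (y, false) h2 hy2 (fun h => hm (congrArg Prod.fst h))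
    exact ⟨_, k1, _, k3, y, k2, k4⟩

theorem Derives.restr {F : Set (Finset (X × Bool))} {l : List (Finset (X × Bool))}
    (h : Derives F l) (m : X × Bool) : Derives (restr F m) (restrL l m) := by
  induction h with
  | nil => exact Derives.nil
  | @axm l A C hl hA hAC ih =>
    by_cases hC : m ∈ C
    · rw [restrL_cons_pos hC]
      exact ih
    · rw [restrL_cons_neg hC]
      exact Derives.axm ih ⟨A, hA, fun h => hC (hAC h), rfl⟩ (erase_subset_erase _ hAC)
  | @res l C₁ C₂ C hl h1 h2 hres ih =>
    by_cases hC : m ∈ C
    · rw [restrL_cons_pos hC]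
      exact ih
    · rw [restrL_cons_neg hC]
      obtain ⟨D₁, hD1, D₂, hD2, h⟩ := hres.erase hC h1 h2
      exact Derives.res ih hD1 hD2 h

theorem empty_mem_restrL {l : List (Finset (X × Bool))} (h : (∅ : Finset (X × Bool)) ∈ l)
    (m : X × Bool) : (∅ : Finset (X × Bool)) ∈ restrL l m :=
  mem_restrL.2 ⟨∅, h, notMem_empty _, by simp⟩

/-- the number of clauses with more than `d` literals -/
noncomputable def fat (d : ℕ) (l : List (Finset (X × Bool))) : ℕ :=
  (l.filter fun C => decide (d < C.card)).length

/-- the number of clauses with more than `d` literals which contain `m` -/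
noncomputable def fatWith (d : ℕ) (l : List (Finset (X × Bool))) (m : X × Bool) : ℕ :=
  (l.filter fun C => decide (d < C.card ∧ m ∈ C)).length

theorem fat_restr (d : ℕ) (l : List (Finset (X × Bool))) (m : X × Bool) :
    fat d (restrL l m) + fatWith d l m ≤ fat d l := by
  induction l with
  | nil => simp [fat, fatWith, restrL]
  | cons C l ih =>
    have e1 : fat d (C :: l) = (if d < C.card then 1 else 0) + fat d l := by
      unfold fat
      rw [List.filter_cons]
      split_ifs with h1 h2 h2
      · rw [List.length_cons]; omega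
      · simp at h1; exact absurd h1 h2
      · simp at h1; omega
      · omega
    have e2 : fatWith d (C :: l) m = (if d < C.card ∧ m ∈ C then 1 else 0) + fatWith d l m := by
      unfold fatWith
      rw [List.filter_cons]
      split_ifs with h1 h2 h2
      · rw [List.length_cons]; omega
      · exact absurd (of_decide_eq_true h1) h2
      · exact absurd (decide_eq_true h2) h1
      · omega
    by_cases hC : m ∈ C
    · rw [restrL_cons_pos hC, e1, e2]
      by_cases hd : d < C.card
      · simp only [hd, hC, and_self, if_true]
        omega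
      · simp only [hd, false_and, if_false]
        omega
    · have e3 : fat d (C.erase (neg m) :: restrL l m) =
          (if d < (C.erase (neg m)).card then 1 else 0) + fat d (restrL l m) := by
        unfold fat
        rw [List.filter_cons]
        split_ifs with h1 h2 h2
        · rw [List.length_cons]; omega
        · exact absurd (of_decide_eq_true h1) h2
        · exact absurd (decide_eq_true h2) h1
        · omega
      rw [restrL_cons_neg hC, e1, e2, e3]
      have hle : (C.erase (neg m)).card ≤ C.card := card_erase_le
      simp only [hC, and_false, if_false]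
      by_cases hd : d < C.card
      · simp only [hd, if_true]
        split_ifs <;> omega
      · have : ¬ d < (C.erase (neg m)).card := by omega
        simp only [hd, this, if_false]
        omega

/-- the clauses contain only variables from `V` -/
def Over (V : Finset X) (l : List (Finset (X × Bool))) : Prop := ∀ C ∈ l, ∀ x ∈ C, x.1 ∈ V

theorem Over.restr {V : Finset X} {l : List (Finset (X × Bool))} (h : Over V l) (m : X × Bool) :
    Over (V.erase m.1) (restrL l m) := by
  intro C' hC' x hx
  obtain ⟨C, hC, hm, rfl⟩ := mem_restrL.1 hC'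
  obtain ⟨hx1, hx2⟩ := mem_erase.1 hx
  refine mem_erase.2 ⟨fun h1 => ?_, h C hC x hx2⟩
  -- `x` is a literal of the variable of `m`
  have : x = m ∨ x = neg m := by
    rcases hb : x.2 with _ | _ <;> rcases hc : m.2 with _ | _
    · exact Or.inl (Prod.ext h1 (hb.trans hc.symm))
    · exact Or.inr (Prod.ext h1 (by simp [neg, hb, hc]))
    · exact Or.inr (Prod.ext h1 (by simp [neg, hb, hc]))
    · exact Or.inl (Prod.ext h1 (hb.trans hc.symm))
  rcases this with rfl | rfl
  · exact hm hx2
  · exact hx1 rfl

/-- some literal is contained in many fat clauses -/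
theorem exists_literal {V : Finset X} {l : List (Finset (X × Bool))} (h : Over V l) (d : ℕ)
    (hV : V.Nonempty) :
    ∃ m : X × Bool, m.1 ∈ V ∧ fat d l * d ≤ fatWith d l m * (2 * V.card) := by
  by_contra hcon
  push Not at hcon
  have hsum : ∑ m ∈ V ×ˢ (univ : Finset Bool), fatWith d l m ≥ fat d l * d := by
    clear hcon
    induction l with
    | nil => simp [fat]
    | cons C l ih =>
      have h' : Over V l := fun C hC => h C (List.mem_cons_of_mem _ hC)
      have e1 : fat d (C :: l) = (if d < C.card then 1 else 0) + fat d l := by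
        unfold fat
        rw [List.filter_cons]
        split_ifs with h1 h2 h2
        · rw [List.length_cons]; omega
        · exact absurd (of_decide_eq_true h1) h2
        · exact absurd (decide_eq_true h2) h1
        · omega
      have e2 : ∀ m, fatWith d (C :: l) m =
          (if d < C.card ∧ m ∈ C then 1 else 0) + fatWith d l m := by
        intro m
        unfold fatWith
        rw [List.filter_cons]
        split_ifs with h1 h2 h2
        · rw [List.length_cons]; omega
        · exact absurd (of_decide_eq_true h1) h2
        · exact absurd (decide_eq_true h2) h1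
        · omega
      simp only [e2, sum_add_distrib]
      rw [e1, add_mul]
      refine add_le_add ?_ (ih h')
      by_cases hd : d < C.card
      · simp only [hd, true_and, if_true, one_mul]
        rw [← card_filter]
        refine hd.le.trans (card_le_card fun x hx => ?_)
        rw [mem_filter, mem_product]
        exact ⟨⟨h C List.mem_cons_self x hx, mem_univ _⟩, hx⟩
      · simp [hd]
  have hlt : ∑ m ∈ V ×ˢ (univ : Finset Bool), fatWith d l m * (2 * V.card) <
      ∑ _m ∈ V ×ˢ (univ : Finset Bool), fat d l * d := by
    refine sum_lt_sum_of_nonempty ?_ fun m hm => hcon m (mem_product.1 hm).1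
    obtain ⟨v, hv⟩ := hV
    exact ⟨(v, true), mem_product.2 ⟨hv, mem_univ _⟩⟩
  rw [← sum_mul, sum_const, card_product, card_univ, Fintype.card_bool, smul_eq_mul] at hlt
  have h3 : fat d l * d * (2 * V.card) ≤
      (∑ m ∈ V ×ˢ (univ : Finset Bool), fatWith d l m) * (2 * V.card) :=
    Nat.mul_le_mul_right _ hsum
  have h4 : V.card * 2 * (fat d l * d) = fat d l * d * (2 * V.card) := by ring
  omega

theorem Der.card_le {w : ℕ} {F : Set (Finset (X × Bool))} {C : Finset (X × Bool)}
    (h : Der w F C) : C.card ≤ w := by
  cases h with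
  | axm _ _ h => exact h
  | res _ _ _ h => exact h

theorem Der.mono {w w' : ℕ} (hw : w ≤ w') {F : Set (Finset (X × Bool))} {C : Finset (X × Bool)}
    (h : Der w F C) : Der w' F C := by
  induction h with
  | axm h1 h2 h3 => exact Der.axm h1 h2 (h3.trans hw)
  | res _ _ h3 h4 ih1 ih2 => exact Der.res ih1 ih2 h3 (h4.trans hw)

/-- a derivation from the restricted axioms gives one with the opposite literal added -/
theorem Der.lift {k : ℕ} {F : Set (Finset (X × Bool))} {m : X × Bool} {C : Finset (X × Bool)}
    (h : Der k (restr F m) C) : Der (k + 1) F (insert (neg m) C) := by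
  induction h with
  | @axm A' C h1 h2 h3 =>
    obtain ⟨A, hA, -, rfl⟩ := h1
    refine Der.axm hA (fun x hx => ?_) ((card_insert_le _ _).trans (by omega))
    by_cases hxm : x = neg m
    · exact mem_insert.2 (Or.inl hxm)
    · exact mem_insert.2 (Or.inr (h2 (mem_erase.2 ⟨hxm, hx⟩)))
  | @res C₁ C₂ C _ _ h3 h4 ih1 ih2 =>
    obtain ⟨y, hy1, hy2⟩ := h3
    refine Der.res ih1 ih2 ⟨y, ?_, ?_⟩ ((card_insert_le _ _).trans (by omega))
    · rw [insert_comm]
      exact insert_subset_insert _ hy1
    · rw [insert_comm]
      exact insert_subset_insert _ hy2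

/-- the restricted axioms can be derived -/
theorem Der.unrestr {k : ℕ} {F : Set (Finset (X × Bool))} {m : X × Bool}
    (hF : ∀ A ∈ F, A.card ≤ k) (hm : Der k F {m}) {C : Finset (X × Bool)}
    (h : Der k (restr F m) C) : Der k F C := by
  induction h with
  | @axm A' C h1 h2 h3 =>
    obtain ⟨A, hA, -, rfl⟩ := h1
    have hA' : Der k F A := Der.axm hA Subset.rfl (hF A hA)
    have hsub : A ⊆ insert (neg m) C := fun x hx => by
      by_cases hxm : x = neg m
      · exact mem_insert.2 (Or.inl hxm)
      · exact mem_insert.2 (Or.inr (h2 (mem_erase.2 ⟨hxm, hx⟩)))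
    have hsub' : ({m} : Finset (X × Bool)) ⊆ insert m C := by simp
    rcases hb : m.2 with _ | _
    · have e1 : m = (m.1, false) := Prod.ext rfl hb
      have e2 : neg m = (m.1, true) := by simp [neg, hb]
      rw [e2] at hsub
      rw [e1] at hsub' hm
      exact Der.res hA' hm ⟨m.1, hsub, hsub'⟩ h3
    · have e1 : m = (m.1, true) := Prod.ext rfl hb
      have e2 : neg m = (m.1, false) := by simp [neg, hb]
      rw [e2] at hsub
      rw [e1] at hsub' hm
      exact Der.res hm hA' ⟨m.1, hsub', hsub⟩ h3
  | @res C₁ C₂ C _ _ h3 h4 ih1 ih2 => exact Der.res ih1 ih2 h3 h4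

/-- **Size and width** (Ben-Sasson, Wigderson). -/
theorem width_of_fat (d n : ℕ) (hn : 0 < n) (hd : d ≤ 2 * n) (b : ℕ) :
    ∀ (v : ℕ) (V : Finset X), V.card = v → v ≤ n → ∀ (F : Set (Finset (X × Bool)))
      (l : List (Finset (X × Bool))), (∀ A ∈ F, A.card ≤ d) → Derives F l → ∅ ∈ l → Over V l →
      (fat d l : ℝ) * (1 - (d : ℝ) / (2 * n)) ^ b < 1 → Der (d + b) F ∅ := by
  have hn' : (0 : ℝ) < 2 * n := by positivity
  have hbase : ∀ (F : Set (Finset (X × Bool))) (l : List (Finset (X × Bool))), Derives F l →
      fat d l = 0 → ∀ C ∈ l, Der d F C := by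
    intro F l hl
    induction hl with
    | nil => simp
    | @axm l A C hl hA hAC ih =>
      intro h0
      have e1 : fat d (C :: l) = (if d < C.card then 1 else 0) + fat d l := by
        unfold fat
        rw [List.filter_cons]
        split_ifs with h1 h2 h2
        · rw [List.length_cons]; omega
        · exact absurd (of_decide_eq_true h1) h2
        · exact absurd (decide_eq_true h2) h1
        · omega
      rw [e1] at h0
      have h1 : C.card ≤ d := by
        by_contra h
        rw [if_pos (by omega)] at h0
        omega
      intro C' hC'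
      rcases List.mem_cons.1 hC' with rfl | hC'
      · exact Der.axm hA hAC h1
      · exact ih (by omega) C' hC'
    | @res l C₁ C₂ C hl hC1 hC2 hres ih =>
      intro h0
      have e1 : fat d (C :: l) = (if d < C.card then 1 else 0) + fat d l := by
        unfold fat
        rw [List.filter_cons]
        split_ifs with h1 h2 h2
        · rw [List.length_cons]; omega
        · exact absurd (of_decide_eq_true h1) h2
        · exact absurd (decide_eq_true h2) h1
        · omega
      rw [e1] at h0
      have h1 : C.card ≤ d := by
        by_contra h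
        rw [if_pos (by omega)] at h0
        omega
      have h2 : fat d l = 0 := by omega
      intro C' hC'
      rcases List.mem_cons.1 hC' with rfl | hC'
      · exact Der.res (ih h2 _ hC1) (ih h2 _ hC2) hres h1
      · exact ih h2 C' hC'
  induction b with
  | zero =>
    intro v V _ _ F l _ hl he _ hfat
    rw [pow_zero, mul_one] at hfat
    have h0 : fat d l = 0 := by
      have : fat d l < 1 := by exact_mod_cast hfat
      omega
    exact hbase F l hl h0 ∅ he
  | succ b ihb =>
    intro v
    induction v using Nat.strong_induction_on with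
    | _ v ihv =>
    intro V hV hvn F l hF hl he hO hfat
    by_cases h0 : fat d l = 0
    · exact (hbase F l hl h0 ∅ he).mono (by omega)
    by_cases hVe : V = ∅
    · -- no variables: all clauses are empty
      exfalso
      apply h0
      unfold fat
      rw [List.length_eq_zero_iff, List.filter_eq_nil_iff]
      intro C hC
      have : C = ∅ := by
        rw [eq_empty_iff_forall_notMem]
        intro x hx
        have := hO C hC x hx
        rw [hVe] at this
        exact notMem_empty _ this
      rw [this]
      simp
    obtain ⟨m, hm1, hm2⟩ := exists_literal hO d (nonempty_iff_ne_empty.2 hVe)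
    have hcard : (V.erase m.1).card < V.card := card_erase_lt_of_mem hm1
    have hcard' : (V.erase (neg m).1).card < V.card := hcard
    have hx0 : (0 : ℝ) ≤ 1 - (d : ℝ) / (2 * n) := by
      rw [sub_nonneg, div_le_one hn']
      exact_mod_cast hd
    have hFr : ∀ m' : X × Bool, ∀ A ∈ restr F m', A.card ≤ d := by
      rintro m' _ ⟨A, hA, -, rfl⟩
      exact card_erase_le.trans (hF A hA)
    -- the literal is true
    have h1 : Der (d + b) (restr F m) ∅ := by
      refine ihb _ (V.erase m.1) rfl (by omega) _ _ (hFr m) (hl.restr m) (empty_mem_restrL he m)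
        (hO.restr m) ?_
      have h2 : (fat d (restrL l m) : ℝ) ≤ fat d l * (1 - (d : ℝ) / (2 * n)) := by
        have h3 : (fat d (restrL l m) : ℝ) + fatWith d l m ≤ fat d l := by
          exact_mod_cast fat_restr d l m
        have h4 : (fat d l : ℝ) * d ≤ fatWith d l m * (2 * n) := by
          have h5 : fat d l * d ≤ fatWith d l m * (2 * n) :=
            hm2.trans (Nat.mul_le_mul_left _ (by omega))
          exact_mod_cast h5
        have h6 : (fat d l : ℝ) * (d / (2 * n)) ≤ fatWith d l m := by
          rw [← mul_div_assoc, div_le_iff₀ hn']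
          exact h4
        rw [mul_sub, mul_one]
        linarith
      calc (fat d (restrL l m) : ℝ) * (1 - (d : ℝ) / (2 * n)) ^ b
          ≤ fat d l * (1 - (d : ℝ) / (2 * n)) * (1 - (d : ℝ) / (2 * n)) ^ b :=
            mul_le_mul_of_nonneg_right h2 (pow_nonneg hx0 _)
        _ = fat d l * (1 - (d : ℝ) / (2 * n)) ^ (b + 1) := by rw [pow_succ]; ring
        _ < 1 := hfat
    -- the literal is false
    have h2 : Der (d + (b + 1)) (restr F (neg m)) ∅ := by
      refine ihv _ (by omega) (V.erase (neg m).1) rfl ?_ _ _ (hFr _) (hl.restr _)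
        (empty_mem_restrL he _) (hO.restr _) ?_
      · exact card_erase_le.trans (by omega)
      · have h3 : (fat d (restrL l (neg m)) : ℝ) ≤ fat d l := by
          have := fat_restr d l (neg m)
          exact_mod_cast (Nat.le_of_add_right_le this)
        exact lt_of_le_of_lt (mul_le_mul_of_nonneg_right h3 (pow_nonneg hx0 _)) hfat
    have h3 : Der (d + (b + 1)) F {neg m} := by
      have := h1.lift
      rw [insert_empty_eq] at this
      exact this
    exact Der.unrestr (fun A hA => (hF A hA).trans (by omega)) h3 h2

/-- **Size and width.** -/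
theorem size_of_width [Fintype X] (hX : 0 < Fintype.card X) {d b : ℕ}
    (hd : d ≤ 2 * Fintype.card X) {F : Set (Finset (X × Bool))} (hF : ∀ A ∈ F, A.card ≤ d)
    (hw : ¬ Der (d + b) F ∅) {l : List (Finset (X × Bool))} (hl : Derives F l) (he : ∅ ∈ l) :
    Real.exp ((d : ℝ) * b / (2 * Fintype.card X)) ≤ l.length := by
  set n := Fintype.card X with hn
  have hn' : (0 : ℝ) < 2 * n := by positivity
  have h1 : 1 ≤ (fat d l : ℝ) * (1 - (d : ℝ) / (2 * n)) ^ b := by
    by_contra hcon
    rw [not_le] at hcon
    exact hw (width_of_fat d n hX hd b _ univ rfl (by rw [card_univ]) F l hF hl he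
      (fun _ _ _ _ => mem_univ _) hcon)
  have hx0 : (0 : ℝ) ≤ 1 - (d : ℝ) / (2 * n) := by
    rw [sub_nonneg, div_le_one hn']
    exact_mod_cast hd
  have h2 : (1 - (d : ℝ) / (2 * n)) ^ b ≤ Real.exp (-((d : ℝ) * b / (2 * n))) := by
    calc (1 - (d : ℝ) / (2 * n)) ^ b ≤ (Real.exp (-((d : ℝ) / (2 * n)))) ^ b := by
          refine pow_le_pow_left₀ hx0 ?_ b
          have := Real.add_one_le_exp (-((d : ℝ) / (2 * n)))
          linarith
      _ = _ := by
          rw [← Real.exp_nat_mul]
          congr 1
          ring
  have h3 : (fat d l : ℝ) ≤ l.length := by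
    exact_mod_cast List.length_filter_le _ _
  have h4 : 1 ≤ (l.length : ℝ) * Real.exp (-((d : ℝ) * b / (2 * n))) :=
    h1.trans (mul_le_mul h3 h2 (pow_nonneg hx0 _) (Nat.cast_nonneg _))
  rw [Real.exp_neg, ← div_eq_mul_inv, le_div_iff₀ (Real.exp_pos _), one_mul] at h4
  exact h4

/-- If all the clauses of a derivation have at most `w` literals then they have derivations of width
`w`. -/
theorem Derives.der {F : Set (Finset (X × Bool))} {w : ℕ} {l : List (Finset (X × Bool))}
    (hl : Derives F l) : (∀ C ∈ l, C.card ≤ w) → ∀ C ∈ l, Der w F C := by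
  induction hl with
  | nil => simp
  | @axm l A C hl hA hAC ih =>
    intro h C' hC'
    rcases List.mem_cons.1 hC' with rfl | hC'
    · exact Der.axm hA hAC (h _ List.mem_cons_self)
    · exact ih (fun C hC => h C (List.mem_cons_of_mem _ hC)) C' hC'
  | @res l C₁ C₂ C hl hC1 hC2 hres ih =>
    intro h C' hC'
    have h' := ih (fun C hC => h C (List.mem_cons_of_mem _ hC))
    rcases List.mem_cons.1 hC' with rfl | hC'
    · exact Der.res (h' _ hC1) (h' _ hC2) hres (h _ List.mem_cons_self)
    · exact h' C' hC'

end Pool.Agent.L0h20.RS
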