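import Pool.Agent.H589R3.DT.Two
import Pool.Agent.L0h20.RS.Res

/-!
# 2-to-1 games: local consistency and the formula that says that the value is one (definitions)
-/

set_option autoImplicit false

open Finset

namespace Pool.Agent.L0h20.RS

open H589DT

variable {U V : Type} {q : ℕ}

/-- The game `I` passes the consistency test of level `l`: there is a nonempty system `C` of labellings
of the sets `S` of vertices (`C S ρ`: the restriction of `ρ` to `S` belongs to the system), closed under
restrictions, such that each labelling of `S` in the system can be extended to each larger set with at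
most `l` vertices, and such that the labellings of `S` in the system satisfy all the constraints inside
`S`. (Equivalently, the duplicator has a winning strategy in the existential pebble game with `l`
pebbles.) -/
def LocallyConsistent (I : TGame U V q) (l : ℕ) : Prop :=
  ∃ C : Finset (U ⊕ V) → (U ⊕ V → Fin q) → Prop,
    (∃ ρ, C ∅ ρ) ∧ (∀ S T ρ, S ⊆ T → C T ρ → C S ρ) ∧
    (∀ S T ρ, S ⊆ T → T.card ≤ l → C S ρ → ∃ ρ', (∀ x ∈ S, ρ' x = ρ x) ∧ C T ρ') ∧
    ∀ S ρ, C S ρ → ∀ u v, Sum.inl u ∈ S → Sum.inr v ∈ S → I.adj u v →
      I.map u v (ρ (Sum.inl u)) = ρ (Sum.inr v)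

/-- The formula which says that the game `I` has value one. The variable `(x, a)` says that the vertex
`x` has the label `a`. The clauses: every vertex has a label; no vertex has two labels; the labels of the
ends of an edge satisfy the constraint. -/
def formula [DecidableEq U] [DecidableEq V] (I : TGame U V q) : Set (Finset (((U ⊕ V) × Fin q) × Bool)) :=
  {A | (∃ x : U ⊕ V, A = univ.image fun a : Fin q => ((x, a), true)) ∨
    (∃ (x : U ⊕ V) (a a' : Fin q), a ≠ a' ∧ A = {((x, a), false), ((x, a'), false)}) ∨
    ∃ (u : U) (v : V) (a b : Fin q), I.adj u v ∧ I.map u v a ≠ b ∧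
      A = {((Sum.inl u, a), false), ((Sum.inr v, b), false)}}

/-- The truth assignment `τ` satisfies all clauses of the formula `F`. -/
def Satisfies {X : Type} (τ : X → Bool) (F : Set (Finset (X × Bool))) : Prop :=
  ∀ A ∈ F, ∃ m ∈ A, τ m.1 = m.2

end Pool.Agent.L0h20.RS
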