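import Pool.Agent.L0h20.RS.GameDefs

/-!
# 2-to-1 games: consistency and resolution
-/

set_option autoImplicit false
set_option linter.unusedSectionVars false

open Finset

namespace Pool.Agent.L0h20.RS

open H589DT

variable {U V : Type} [DecidableEq U] [DecidableEq V] {q : ℕ}

/-- the formula says that the value is one -/
theorem sat_iff (I : TGame U V q) :
    (∃ τ, Satisfies τ (formula I)) ↔
      ∃ (A : U → Fin q) (B : V → Fin q), ∀ u v, I.adj u v → I.map u v (A u) = B v := by
  constructor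
  · rintro ⟨τ, hτ⟩
    have h1 : ∀ x : U ⊕ V, ∃ a : Fin q, τ (x, a) = true := by
      intro x
      obtain ⟨m, hm, h⟩ := hτ _ (Or.inl ⟨x, rfl⟩)
      obtain ⟨a, -, rfl⟩ := mem_image.1 hm
      exact ⟨a, h⟩
    choose g hg using h1
    refine ⟨fun u => g (Sum.inl u), fun v => g (Sum.inr v), fun u v huv => ?_⟩
    by_contra hne
    obtain ⟨m, hm, h⟩ := hτ _ (Or.inr (Or.inr ⟨u, v, g (Sum.inl u), g (Sum.inr v), huv, hne, rfl⟩))
    rcases mem_insert.1 hm with rfl | hm
    · rw [hg] at h
      exact absurd h (by simp)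
    · rw [mem_singleton] at hm
      subst hm
      rw [hg] at h
      exact absurd h (by simp)
  · rintro ⟨A, B, hAB⟩
    let ρ : U ⊕ V → Fin q := Sum.elim A B
    refine ⟨fun x => decide (ρ x.1 = x.2), ?_⟩
    rintro _ (⟨x, rfl⟩ | ⟨x, a, a', hne, rfl⟩ | ⟨u, v, a, b, huv, hab, rfl⟩)
    · exact ⟨((x, ρ x), true), mem_image.2 ⟨ρ x, mem_univ _, rfl⟩, by simp⟩
    · by_cases h : ρ x = a
      · refine ⟨((x, a'), false), by simp, ?_⟩
        simp only [decide_eq_false_iff_not]
        rw [h]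
        exact hne
      · exact ⟨((x, a), false), by simp, by simpa using h⟩
    · by_cases h : A u = a
      · refine ⟨((Sum.inr v, b), false), by simp, ?_⟩
        simp only [decide_eq_false_iff_not]
        intro h'
        apply hab
        rw [← h, hAB u v huv]
        exact h'
      · refine ⟨((Sum.inl u, a), false), by simp, ?_⟩
        simp only [decide_eq_false_iff_not]
        exact h

/-- the truth assignment of a labelling -/
def asg (ρ : U ⊕ V → Fin q) (x : (U ⊕ V) × Fin q) : Bool := decide (ρ x.1 = x.2)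

/-- the labelling satisfies the clause -/
def SatC (ρ : U ⊕ V → Fin q) (C : Finset (((U ⊕ V) × Fin q) × Bool)) : Prop :=
  ∃ m ∈ C, asg ρ m.1 = m.2

/-- the vertices of a clause -/
noncomputable def verts (C : Finset (((U ⊕ V) × Fin q) × Bool)) : Finset (U ⊕ V) :=
  C.image fun m => m.1.1

theorem card_verts (C : Finset (((U ⊕ V) × Fin q) × Bool)) : (verts C).card ≤ C.card :=
  card_image_le

theorem mem_verts {C : Finset (((U ⊕ V) × Fin q) × Bool)} {m : ((U ⊕ V) × Fin q) × Bool}
    (h : m ∈ C) : m.1.1 ∈ verts C := mem_image_of_mem _ h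

/-- the clauses of the formula are satisfied by consistent labellings -/
theorem satC_axiom {I : TGame U V q} {S : Finset (U ⊕ V)} {ρ : U ⊕ V → Fin q}
    (h : ∀ u v, Sum.inl u ∈ S → Sum.inr v ∈ S → I.adj u v →
      I.map u v (ρ (Sum.inl u)) = ρ (Sum.inr v))
    {A : Finset (((U ⊕ V) × Fin q) × Bool)} (hA : A ∈ formula I) (hS : verts A ⊆ S) : SatC ρ A := by
  rcases hA with ⟨x, rfl⟩ | ⟨x, a, a', hne, rfl⟩ | ⟨u, v, a, b, huv, hab, rfl⟩
  · exact ⟨((x, ρ x), true), mem_image.2 ⟨ρ x, mem_univ _, rfl⟩, by simp [asg]⟩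
  · by_cases h' : ρ x = a
    · refine ⟨((x, a'), false), by simp, ?_⟩
      simp only [asg, decide_eq_false_iff_not]
      rw [h']
      exact hne
    · exact ⟨((x, a), false), by simp, by simpa [asg] using h'⟩
  · by_cases h' : ρ (Sum.inl u) = a
    · refine ⟨((Sum.inr v, b), false), by simp, ?_⟩
      simp only [asg, decide_eq_false_iff_not]
      intro h''
      apply hab
      rw [← h', h u v (hS (mem_verts (by simp : ((Sum.inl u, a), false) ∈ _)))
        (hS (mem_verts (by simp : ((Sum.inr v, b), false) ∈ _))) huv]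
      exact h''
    · exact ⟨((Sum.inl u, a), false), by simp, by simpa [asg] using h'⟩

/-- resolution steps -/
theorem satC_res {ρ : U ⊕ V → Fin q} {C₁ C₂ C : Finset (((U ⊕ V) × Fin q) × Bool)}
    (h : Resolves C₁ C₂ C) (h1 : SatC ρ C₁) (h2 : SatC ρ C₂) : SatC ρ C := by
  obtain ⟨y, hy1, hy2⟩ := h
  obtain ⟨m1, hm1, e1⟩ := h1
  obtain ⟨m2, hm2, e2⟩ := h2
  rcases mem_insert.1 (hy1 hm1) with rfl | h1
  · rcases mem_insert.1 (hy2 hm2) with rfl | h2
    · rw [e1] at e2
      exact absurd e2 (by simp)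
    · exact ⟨m2, h2, e2⟩
  · exact ⟨m1, h1, e1⟩

theorem satC_congr {ρ ρ' : U ⊕ V → Fin q} {C : Finset (((U ⊕ V) × Fin q) × Bool)}
    {S : Finset (U ⊕ V)} (hS : verts C ⊆ S) (h : ∀ x ∈ S, ρ' x = ρ x) (hC : SatC ρ' C) :
    SatC ρ C := by
  obtain ⟨m, hm, e⟩ := hC
  refine ⟨m, hm, ?_⟩
  rw [← e]
  unfold asg
  rw [h _ (hS (mem_verts hm))]

/-- **Width.** -/
theorem not_der {I : TGame U V q} {l w : ℕ} (hI : LocallyConsistent I l) (hw : w + 1 ≤ l) :
    ¬ Der w (formula I) ∅ := by
  obtain ⟨Cn, ⟨ρ0, h0⟩, hres, hext, hsat⟩ := hI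
  have key : ∀ C, Der w (formula I) C → ∀ S ρ, Cn S ρ → verts C ⊆ S → SatC ρ C := by
    intro C hC
    induction hC with
    | @axm A C hA hAC hcard =>
      intro S ρ hS hC
      obtain ⟨m, hm, e⟩ := satC_axiom (hsat S ρ hS) hA ((image_subset_image hAC).trans hC)
      exact ⟨m, hAC hm, e⟩
    | @res C₁ C₂ C _ _ h3 hcard ih1 ih2 =>
      intro S ρ hS hC
      obtain ⟨y, hy1, hy2⟩ := id h3
      -- restrict to the vertices of `C` and add the vertex of `y`
      have hS0 : Cn (verts C) ρ := hres _ _ ρ hC hS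
      set T := insert y.1 (verts C) with hT
      have hTc : T.card ≤ l := by
        have h1 := card_verts C
        have h2 := card_insert_le y.1 (verts C)
        rw [← hT] at h2
        omega
      obtain ⟨ρ', hρ', hT'⟩ := hext (verts C) T ρ (subset_insert _ _) hTc hS0
      have hsub : ∀ (D : Finset (((U ⊕ V) × Fin q) × Bool)) (b : Bool), D ⊆ insert (y, b) C →
          verts D ⊆ T := by
        intro D b hD x hx
        obtain ⟨m, hm, rfl⟩ := mem_image.1 hx
        rcases mem_insert.1 (hD hm) with rfl | h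
        · exact mem_insert_self _ _
        · exact mem_insert_of_mem (mem_verts h)
      have h4 := satC_res h3 (ih1 T ρ' hT' (hsub C₁ true hy1)) (ih2 T ρ' hT' (hsub C₂ false hy2))
      exact satC_congr Subset.rfl hρ' h4
  intro h
  obtain ⟨m, hm, -⟩ := key ∅ h ∅ ρ0 h0 (by simp [verts])
  exact notMem_empty _ hm

/-- **Space.** -/
theorem not_memory {I : TGame U V q} {l s : ℕ} (hI : LocallyConsistent I l) (hs : s + 2 ≤ l)
    {M : Finset (Finset (((U ⊕ V) × Fin q) × Bool))} (hM : Memory (formula I) s M) : ∅ ∉ M := by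
  obtain ⟨Cn, ⟨ρ0, h0⟩, hres, hext, hsat⟩ := hI
  -- a consistent labelling of few vertices satisfies all clauses in the memory
  have key : ∃ S ρ, Cn S ρ ∧ S.card ≤ M.card ∧ ∀ C ∈ M, ∃ m ∈ C, m.1.1 ∈ S ∧ asg ρ m.1 = m.2 := by
    -- it is enough to find a labelling of any set
    have shrink : ∀ (M : Finset (Finset (((U ⊕ V) × Fin q) × Bool))) (S : Finset (U ⊕ V))
        (ρ : U ⊕ V → Fin q), Cn S ρ → (∀ C ∈ M, ∃ m ∈ C, m.1.1 ∈ S ∧ asg ρ m.1 = m.2) →
        ∃ S ρ, Cn S ρ ∧ S.card ≤ M.card ∧ ∀ C ∈ M, ∃ m ∈ C, m.1.1 ∈ S ∧ asg ρ m.1 = m.2 := by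
      intro M S ρ hS h
      by_cases hne : M = ∅
      · subst hne
        exact ⟨∅, ρ, hres _ _ ρ (empty_subset _) hS, by simp, by simp⟩
      have hX : Nonempty (((U ⊕ V) × Fin q) × Bool) := by
        obtain ⟨C, hC⟩ := nonempty_iff_ne_empty.2 hne
        obtain ⟨m, -⟩ := h C hC
        exact ⟨m⟩
      have h' : ∀ C : Finset (((U ⊕ V) × Fin q) × Bool), ∃ m : ((U ⊕ V) × Fin q) × Bool,
          C ∈ M → m ∈ C ∧ m.1.1 ∈ S ∧ asg ρ m.1 = m.2 := by
        intro C
        by_cases hC : C ∈ M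
        · obtain ⟨m, hm⟩ := h C hC
          exact ⟨m, fun _ => hm⟩
        · exact ⟨hX.some, fun h => absurd h hC⟩
      choose g hg using h'
      refine ⟨M.image fun C => (g C).1.1, ρ, hres _ S ρ ?_ hS, card_image_le, fun C hC => ?_⟩
      · intro x hx
        obtain ⟨C, hC, rfl⟩ := mem_image.1 hx
        exact (hg C hC).2.1
      · exact ⟨g C, (hg C hC).1, mem_image_of_mem _ hC, (hg C hC).2.2⟩
    have hcard : ∀ M, Memory (formula I) s M → M.card ≤ s := by
      intro M hM
      induction hM with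
      | empty => simp
      | download _ _ h _ => exact h
      | infer _ _ _ _ h _ => exact h
      | erase _ h ih => exact (card_le_card h).trans ih
    induction hM with
    | empty => exact ⟨∅, ρ0, h0, by simp, by simp⟩
    | @download M A hM hA hs' ih =>
      obtain ⟨S, ρ, hS, hSc, h⟩ := ih
      -- add the vertices of the axiom
      have hMs := hcard M hM
      have hvA : ∃ T : Finset (U ⊕ V), T.card ≤ 2 ∧ ∀ (S : Finset (U ⊕ V)) (ρ : U ⊕ V → Fin q),
          Cn S ρ → T ⊆ S → ∃ m ∈ A, m.1.1 ∈ S ∧ asg ρ m.1 = m.2 := by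
        rcases hA with ⟨x, rfl⟩ | ⟨x, a, a', hne, rfl⟩ | ⟨u, v, a, b, huv, hab, rfl⟩
        · refine ⟨{x}, by simp, fun S ρ _ hT => ⟨((x, ρ x), true), mem_image.2 ⟨ρ x, mem_univ _, rfl⟩,
            hT (by simp), by simp [asg]⟩⟩
        · refine ⟨{x}, by simp, fun S ρ _ hT => ?_⟩
          have hx : x ∈ S := hT (by simp)
          by_cases h' : ρ x = a
          · refine ⟨((x, a'), false), by simp, hx, ?_⟩
            simp only [asg, decide_eq_false_iff_not]
            rw [h']
            exact hne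
          · exact ⟨((x, a), false), by simp, hx, by simpa [asg] using h'⟩
        · refine ⟨{Sum.inl u, Sum.inr v}, card_le_two, fun S ρ hS hT => ?_⟩
          have hu : Sum.inl u ∈ S := hT (by simp)
          have hv : Sum.inr v ∈ S := hT (by simp)
          by_cases h' : ρ (Sum.inl u) = a
          · refine ⟨((Sum.inr v, b), false), by simp, hv, ?_⟩
            simp only [asg, decide_eq_false_iff_not]
            intro h''
            apply hab
            rw [← h', hsat S ρ hS u v hu hv huv]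
            exact h''
          · exact ⟨((Sum.inl u, a), false), by simp, hu, by simpa [asg] using h'⟩
      obtain ⟨T, hT2, hT⟩ := hvA
      obtain ⟨ρ', hρ', hST⟩ := hext S (S ∪ T) ρ subset_union_left
        ((card_union_le _ _).trans (by omega)) hS
      refine shrink _ (S ∪ T) ρ' hST fun C hC => ?_
      rcases mem_insert.1 hC with rfl | hC
      · exact hT (S ∪ T) ρ' hST subset_union_right
      · obtain ⟨m, hm, hmS, e⟩ := h C hC
        refine ⟨m, hm, mem_union_left _ hmS, ?_⟩
        rw [← e]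
        unfold asg
        rw [hρ' _ hmS]
    | @infer M C₁ C₂ C hM h1 h2 h3 hs' ih =>
      obtain ⟨S, ρ, hS, hSc, h⟩ := ih
      refine shrink _ S ρ hS fun D hD => ?_
      rcases mem_insert.1 hD with rfl | hD
      · obtain ⟨y, hy1, hy2⟩ := h3
        obtain ⟨m1, hm1, hm1S, e1⟩ := h _ h1
        obtain ⟨m2, hm2, hm2S, e2⟩ := h _ h2
        rcases mem_insert.1 (hy1 hm1) with rfl | h4
        · rcases mem_insert.1 (hy2 hm2) with rfl | h5
          · rw [e1] at e2
            exact absurd e2 (by simp)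
          · exact ⟨m2, h5, hm2S, e2⟩
        · exact ⟨m1, h4, hm1S, e1⟩
      · exact h D hD
    | @erase M M' hM h' ih =>
      obtain ⟨S, ρ, hS, hSc, h⟩ := ih
      exact shrink _ S ρ hS fun C hC => h C (h' hC)
  intro he
  obtain ⟨S, ρ, -, -, h⟩ := key
  obtain ⟨m, hm, -⟩ := h ∅ he
  exact notMem_empty _ hm

end Pool.Agent.L0h20.RS
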