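import Pool.Agent.L0h20.RS.PtrDefs
import Pool.Agent.L0h20.RS.GameDefs
import Pool.Agent.H589R3.DT.Main

/-!
# From semantic proofs with inequalities to circuits of monotone real gates
-/

set_option autoImplicit false
set_option maxHeartbeats 400000

open scoped Classical
open Finset

namespace Pool.Agent.L0h20.RS

open H589DT
open H630VC (Prog Mono2 marked)

theorem prog_mono {I : Type} {inp : Set (I → ℝ)} {l : List (I → ℝ)} (h : Prog inp l) {x x' : I}
    (hx : ∀ g ∈ inp, g x ≤ g x') : ∀ f ∈ l, f x ≤ f x' := by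
  induction h with
  | nil => intro f hf; simp at hf
  | input _ hf ih =>
    intro f hf'
    rcases List.mem_cons.1 hf' with rfl | h
    · exact hx _ hf
    · exact ih f h
  | gate _ hφ hf hg ih =>
    intro f hf'
    rcases List.mem_cons.1 hf' with rfl | h
    · exact hφ _ _ _ _ (ih _ hf) (ih _ hg)
    · exact ih f h

/-- **Interpolation**: semantic proofs with inequalities give circuits of monotone real gates. -/
theorem interp {X Y I Line Asg : Type} [Fintype X] [Nonempty X] [Fintype Y] [Nonempty Y]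
    (pX : X → I) (pY : Y → I) (inp : Set (I → ℝ)) (hc : ∀ c : ℝ, (fun _ => c) ∈ inp)
    (f : Line → X → ℝ) (g : Line → Y → ℝ) (holds : Line → Asg → Prop) (ax : Set (Asg → Prop))
    (asg : X → Y → Asg) (hh : ∀ L x y, holds L (asg x y) ↔ f L x ≤ g L y)
    (hax : ∀ p ∈ ax, (∀ x y, p (asg x y)) ∨ ∃ b ∈ inp, (∀ i, b i = 0 ∨ b i = 1) ∧
      ∀ x y, (b (pX x) = 0 ∨ b (pY y) = 1) → p (asg x y))
    {l : List Line} (h : Semantic holds ax l) :
    ∃ l' : List (I → ℝ), Prog inp l' ∧ l'.length ≤ 2 * l.length ∧
      ∀ L ∈ l, ∃ F ∈ l', (∀ x, f L x ≤ F (pX x)) ∧ ∀ y, F (pY y) ≤ g L y := by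
  induction h with
  | nil => exact ⟨[], Prog.nil, by simp, by simp⟩
  | @axm l L p hl hp hL ih =>
    obtain ⟨l', h1, h2, h3⟩ := ih
    obtain ⟨x0, hx0⟩ := Finite.exists_max (f L)
    obtain ⟨y0, hy0⟩ := Finite.exists_min (g L)
    rcases hax p hp with hall | ⟨b, hb, hb01, hbp⟩
    · refine ⟨(fun _ => f L x0) :: l', Prog.input h1 (hc _), by simp; omega, ?_⟩
      intro L' hL'
      rcases List.mem_cons.1 hL' with rfl | hL'
      · exact ⟨_, List.mem_cons_self, hx0, fun y => (hh _ x0 y).1 (hL _ (hall x0 y))⟩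
      · obtain ⟨F, hF, h4⟩ := h3 L' hL'
        exact ⟨F, List.mem_cons_of_mem _ hF, h4⟩
    · let S : Finset ℝ := insert (min (f L x0) (g L y0))
        ((univ.filter fun x => b (pX x) = 0).image (f L))
      have hS : S.Nonempty := insert_nonempty _ _
      set c0 := S.max' hS with hc0
      have hc1 : c0 ≤ f L x0 := by
        refine Finset.max'_le _ _ _ fun s hs => ?_
        rcases mem_insert.1 hs with rfl | hs
        · exact min_le_left _ _
        · obtain ⟨x, -, rfl⟩ := mem_image.1 hs
          exact hx0 x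
      have hc2 : ∀ y, c0 ≤ g L y := by
        intro y
        refine Finset.max'_le _ _ _ fun s hs => ?_
        rcases mem_insert.1 hs with rfl | hs
        · exact (min_le_right _ _).trans (hy0 y)
        · obtain ⟨x, hx, rfl⟩ := mem_image.1 hs
          exact (hh _ x y).1 (hL _ (hbp x y (Or.inl (mem_filter.1 hx).2)))
      have hc3 : ∀ x, b (pX x) = 0 → f L x ≤ c0 := by
        intro x hx
        have h4 : f L x ∈ S :=
          mem_insert_of_mem (mem_image_of_mem (f L) (mem_filter.2 ⟨mem_univ x, hx⟩))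
        exact Finset.le_max' S (f L x) h4
      let φ : ℝ → ℝ → ℝ := fun s _ => if 1 ≤ s then f L x0 else c0
      have hφ : Mono2 φ := by
        intro a a' _ _ ha _
        simp only [φ]
        split_ifs with h4 h5
        · exact le_rfl
        · exact absurd (h4.trans ha) h5
        · exact hc1
        · exact le_rfl
      refine ⟨(fun i => φ (b i) (b i)) :: b :: l',
        Prog.gate (Prog.input h1 hb) hφ List.mem_cons_self List.mem_cons_self,
        by simp; omega, ?_⟩
      intro L' hL'
      rcases List.mem_cons.1 hL' with rfl | hL'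
      · refine ⟨_, List.mem_cons_self, fun x => ?_, fun y => ?_⟩
        · rcases hb01 (pX x) with h4 | h4
          · simp only [φ, h4]
            rw [if_neg (by norm_num)]
            exact hc3 x h4
          · simp only [φ, h4, le_refl, if_true]
            exact hx0 x
        · rcases hb01 (pY y) with h4 | h4
          · simp only [φ, h4]
            rw [if_neg (by norm_num)]
            exact hc2 y
          · simp only [φ, h4, le_refl, if_true]
            exact (hh _ x0 y).1 (hL _ (hbp x0 y (Or.inr h4)))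
      · obtain ⟨F, hF, h4⟩ := h3 L' hL'
        exact ⟨F, List.mem_cons_of_mem _ (List.mem_cons_of_mem _ hF), h4⟩
  | @infer l L L₁ L₂ hl h1m h2m hL ih =>
    obtain ⟨l', h1, h2, h3⟩ := ih
    obtain ⟨y0, hy0⟩ := Finite.exists_min (g L)
    obtain ⟨F₁, hF1, h11, h12⟩ := h3 L₁ h1m
    obtain ⟨F₂, hF2, h21, h22⟩ := h3 L₂ h2m
    let S : ℝ → ℝ → Finset ℝ := fun s t => insert (g L y0)
      ((univ.filter fun x => f L₁ x ≤ s ∧ f L₂ x ≤ t).image (f L))
    have hS : ∀ s t, (S s t).Nonempty := fun s t => insert_nonempty _ _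
    let φ : ℝ → ℝ → ℝ := fun s t => (S s t).max' (hS s t)
    have hφ : Mono2 φ := by
      intro a a' b b' ha hb
      refine Finset.max'_le _ _ _ fun s hs => Finset.le_max' _ _ ?_
      rcases mem_insert.1 hs with rfl | hs
      · exact mem_insert_self _ _
      · obtain ⟨x, hx, rfl⟩ := mem_image.1 hs
        obtain ⟨h4, h5⟩ := (mem_filter.1 hx).2
        exact mem_insert_of_mem (mem_image_of_mem _
          (mem_filter.2 ⟨mem_univ _, h4.trans ha, h5.trans hb⟩))
    refine ⟨(fun i => φ (F₁ i) (F₂ i)) :: l', Prog.gate h1 hφ hF1 hF2, by simp; omega, ?_⟩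
    intro L' hL'
    rcases List.mem_cons.1 hL' with rfl | hL'
    · refine ⟨_, List.mem_cons_self, fun x => ?_, fun y => ?_⟩
      · exact Finset.le_max' _ _ (mem_insert_of_mem (mem_image_of_mem _
          (mem_filter.2 ⟨mem_univ _, h11 x, h21 x⟩)))
      · refine Finset.max'_le _ _ _ fun s hs => ?_
        rcases mem_insert.1 hs with rfl | hs
        · exact hy0 y
        · obtain ⟨x, hx, rfl⟩ := mem_image.1 hs
          obtain ⟨h4, h5⟩ := (mem_filter.1 hx).2
          exact (hh _ x y).1 (hL _ ((hh _ x y).2 (h4.trans (h12 y)))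
            ((hh _ x y).2 (h5.trans (h22 y))))
    · obtain ⟨F, hF, h4⟩ := h3 L' hL'
      exact ⟨F, List.mem_cons_of_mem _ hF, h4⟩

section

variable {U E Λ A : Type} [Fintype U] [Fintype E] [Fintype Λ] [Fintype A]

/-- constants and the bits that tell whether a constraint of the host is present -/
def bitInputs (E A : Type) : Set (Finset (E × A × A) → ℝ) :=
  {g | (∃ c : ℝ, g = fun _ => c) ∨ ∃ c : E × A × A, g = fun H => if c ∈ H then 1 else 0}

/-- all constraints of the host that are satisfied by the labels `y` of all copies -/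
noncomputable def hY (G : CGraph U E Λ) (y : U × A → Λ) : Finset (E × A × A) :=
  hT G (univ.image fun p => (p, y p))

omit [Fintype U] in
theorem hT_mono (G : CGraph U E Λ) {T T' : Finset ((U × A) × Λ)} (h : T ⊆ T') :
    hT G T ⊆ hT G T' := by
  intro c hc
  obtain ⟨σ, τ, h1, h2, h3⟩ := (mem_filter.1 hc).2
  exact mem_filter.2 ⟨mem_univ _, σ, τ, h h1, h h2, h3⟩

omit [Fintype U] [Fintype Λ] in
theorem mem_hx {G : CGraph U E Λ} {x : U → A} {c : E × A × A} :
    c ∈ hx G x ↔ c.2.1 = x (G.src c.1) ∧ c.2.2 = x (G.tgt c.1) := by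
  simp [hx]

theorem mem_hY {G : CGraph U E Λ} {y : U × A → Λ} {c : E × A × A} :
    c ∈ hY G y ↔ G.rel c.1 (y (G.src c.1, c.2.1)) (y (G.tgt c.1, c.2.2)) := by
  unfold hY hT
  simp only [mem_filter, mem_univ, true_and, mem_image, Prod.mk.injEq]
  constructor
  · rintro ⟨σ, τ, ⟨p, h1, h2⟩, ⟨p', h3, h4⟩, h5⟩
    subst h1
    subst h3
    rw [h2, h4]
    exact h5
  · intro h
    exact ⟨_, _, ⟨_, rfl, rfl⟩, ⟨_, rfl, rfl⟩, h⟩

/-- **The lower bound for semantic proofs on a constraint graph with locally consistent labellings.** -/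
theorem core [Nonempty Λ] [Nonempty A] (G : CGraph U E Λ) (L M Q : ℕ) (F : Local U Λ (2 * L))
    (hF : ∀ S ρ, F.C S ρ → G.SatOn S ρ) (hL : 2 ≤ L) (hM : 1 ≤ M) (hQ : 1 ≤ Q)
    (g1 : 64 * L * Q ≤ Fintype.card A)
    (g2 : 8 * (Fintype.card U * Fintype.card A * Fintype.card Λ ^ 2 * M ^ 2) ≤ Q ^ 2)
    (g3 : 2 ^ L * (Fintype.card U * Fintype.card A * Fintype.card Λ + 1) ^ (2 * L) * 8 ≤ 2 ^ M)
    {Line Asg : Type}
    (f : Line → (U → A) → ℝ) (g : Line → (U × A → Λ) → ℝ) (holds : Line → Asg → Prop)
    (ax : Set (Asg → Prop)) (asg : (U → A) → (U × A → Λ) → Asg)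
    (hh : ∀ L x y, holds L (asg x y) ↔ f L x ≤ g L y)
    (hax : ∀ p ∈ ax, (∀ x y, p (asg x y)) ∨ ∃ c : E × A × A,
      ∀ x y, (c ∉ hx G x ∨ c ∈ hY G y) → p (asg x y))
    {l : List Line} (h : Semantic holds ax l) {L0 : Line} (hL0 : L0 ∈ l)
    (hfalse : ∀ x y, ¬ f L0 x ≤ g L0 y) : 2 ^ L ≤ 2 * l.length + 1 := by
  obtain ⟨l', h1, h2, h3⟩ := interp (hx G) (hY G) (bitInputs E A) (fun c => Or.inl ⟨c, rfl⟩)
    f g holds ax asg hh (fun p hp => by
      rcases hax p hp with h | ⟨c, hc⟩
      · exact Or.inl h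
      · refine Or.inr ⟨fun H => if c ∈ H then 1 else 0, Or.inr ⟨c, rfl⟩, fun H => ?_,
          fun x y hxy => hc x y ?_⟩
        · by_cases h' : c ∈ H
          · exact Or.inr (if_pos h')
          · exact Or.inl (if_neg h')
        · rcases hxy with h' | h'
          · left
            intro h4
            simp only [h4, if_true] at h'
            norm_num at h'
          · right
            by_contra h4
            simp only [h4, if_false] at h'
            norm_num at h') h
  obtain ⟨F', hF', h4, h5⟩ := h3 L0 hL0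
  obtain ⟨x0, hx0⟩ := Finite.exists_min (f L0)
  set θ := f L0 x0 with hθ
  let φ : ℝ → ℝ → ℝ := fun a _ => a - θ + 1
  have hφ : Mono2 φ := by
    intro a a' _ _ ha _
    simp only [φ]
    linarith
  have h6 : Prog (bitInputs E A) ((fun i => φ (F' i) (F' i)) :: l') := Prog.gate h1 hφ hF' hF'
  obtain ⟨ω, hω⟩ := generic ho_all t_NC G L M Q F hF hL hM hQ g1 g2 g3 (I := Finset (E × A × A))
    id (bitInputs E A) (by
      intro g hg
      rcases hg with ⟨c, rfl⟩ | ⟨c, rfl⟩
      · exact Or.inl ⟨c, fun _ => rfl⟩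
      · exact Or.inr ⟨c, fun _ => rfl⟩) Unit (fun _ => (fun i => φ (F' i) (F' i)) :: l')
    (fun _ => h6) (fun _ => fun i => φ (F' i) (F' i)) (fun _ => List.mem_cons_self) (by
      intro x
      have h7 : (univ.filter fun _ω : Unit => 1 ≤ φ (F' (id (hx G x))) (F' (id (hx G x)))) = univ := by
        refine filter_true_of_mem fun _ _ => ?_
        have := (hx0 x).trans (h4 x)
        simp only [φ, id]
        linarith
      rw [h7, card_univ]
      omega) (by
      intro T hT'
      have h7 : (univ.filter fun _ω : Unit => φ (F' (id (hT G T))) (F' (id (hT G T))) < 1) = univ := by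
        refine filter_true_of_mem fun _ _ => ?_
        let y : U × A → Λ := fun p => if hp : ∃ σ, (p, σ) ∈ T then hp.choose
          else Classical.arbitrary Λ
        have hsub : T ⊆ univ.image fun p => (p, y p) := by
          rintro ⟨p, σ⟩ hp
          have hex : ∃ σ, (p, σ) ∈ T := ⟨σ, hp⟩
          have hy : y p = σ := by
            simp only [y, dif_pos hex]
            exact hT' p _ _ hex.choose_spec hp
          exact mem_image.2 ⟨p, mem_univ _, by rw [hy]⟩
        have h7 : F' (hT G T) ≤ F' (hY G y) := by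
          refine prog_mono h1 ?_ F' hF'
          intro g hg
          rcases hg with ⟨c, rfl⟩ | ⟨c, rfl⟩
          · exact le_rfl
          · by_cases h8 : c ∈ hT G T
            · have h9 : c ∈ hY G y := hT_mono G hsub h8
              simp only [h8, h9, if_true, le_refl]
            · simp only [h8, if_false]
              split_ifs <;> norm_num
        have h8 := hfalse x0 y
        push Not at h8
        have h9 := (h7.trans (h5 y)).trans_lt h8
        simp only [φ, id]
        linarith
      rw [h7, card_univ]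
      omega)
  rw [List.length_cons] at hω
  omega

end

end Pool.Agent.L0h20.RS
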