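import Pool.Agent.L0h20.RS.Interp
import Pool.Agent.L0h20.RS.Exist

/-!
# The value-one formula with pointers and semantic proofs with inequalities
-/

set_option autoImplicit false
set_option maxHeartbeats 400000

open scoped Classical
open Finset

namespace Pool.Agent.L0h20.RS

open H589DT

/-- the constraint graph of a game -/
def gameG {U V : Type} {q : ℕ} (I : TGame U V q) :
    CGraph (U ⊕ V) {e : U × V // I.adj e.1 e.2} (Fin q) where
  src e := Sum.inl e.1.1
  tgt e := Sum.inr e.1.2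
  ne _ := Sum.inl_ne_inr
  rel e a b := I.map e.1.1 e.1.2 a = b

section

variable {U V : Type} [Fintype U] [Fintype V] {q m : ℕ}

/-- the assignment given by pointers and labels -/
noncomputable def asgOf (x : U ⊕ V → Fin m) (y : (U ⊕ V) × Fin m → Fin q) : Asg U V q m :=
  (fun p => decide (x p.1 = p.2), fun t => decide (y t.1 = t.2))

omit [Fintype U] [Fintype V] in
/-- the formula is satisfiable if and only if the game has value one -/
theorem ptr_sat_iff (I : TGame U V q) (hm : 1 ≤ m) :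
    (∃ τ, ∀ c ∈ ptrFormula I m, c τ) ↔
      ∃ (A : U → Fin q) (B : V → Fin q), ∀ u v, I.adj u v → I.map u v (A u) = B v := by
  constructor
  · rintro ⟨τ, hτ⟩
    have h1 : ∀ w : U ⊕ V, ∃ a, τ.1 (w, a) = true := fun w => hτ _ (Or.inl ⟨w, rfl⟩)
    have h3 : ∀ (w : U ⊕ V) (a : Fin m), ∃ t, τ.2 ((w, a), t) = true := fun w a =>
      hτ _ (Or.inr (Or.inr (Or.inl ⟨w, a, rfl⟩)))
    choose x hx using h1
    choose y hy using h3
    refine ⟨fun u => y (Sum.inl u) (x (Sum.inl u)), fun v => y (Sum.inr v) (x (Sum.inr v)),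
      fun u v huv => ?_⟩
    by_contra hne
    have h5 := hτ _ (Or.inr (Or.inr (Or.inr (Or.inr ⟨u, v, x (Sum.inl u), x (Sum.inr v),
      y (Sum.inl u) (x (Sum.inl u)), y (Sum.inr v) (x (Sum.inr v)), huv, hne, rfl⟩))))
    simp only [hx, hy] at h5
    simp at h5
  · rintro ⟨A, B, h⟩
    refine ⟨asgOf (fun _ => ⟨0, hm⟩) (fun p => Sum.elim A B p.1), ?_⟩
    rintro c (⟨w, rfl⟩ | ⟨w, a, a', hne, rfl⟩ | ⟨w, a, rfl⟩ | ⟨w, a, t, t', hne, rfl⟩ |
      ⟨u, v, a, b, t, t', huv, hne, rfl⟩)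
    · exact ⟨⟨0, hm⟩, by simp [asgOf]⟩
    · by_cases h0 : (⟨0, hm⟩ : Fin m) = a
      · right
        exact decide_eq_false fun h1 => hne (h0.symm.trans h1)
      · left
        exact decide_eq_false h0
    · exact ⟨Sum.elim A B w, by simp [asgOf]⟩
    · by_cases h0 : Sum.elim A B w = t
      · right
        exact decide_eq_false fun h1 => hne (h0.symm.trans h1)
      · left
        exact decide_eq_false h0
    · by_cases h0 : A u = t
      · right; right; right
        refine decide_eq_false fun h1 => hne ?_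
        rw [← h0, h u v huv]
        exact h1
      · right; right; left
        exact decide_eq_false h0

/-- the clauses and the host constraints -/
theorem ptr_axioms (I : TGame U V q) (p : Asg U V q m → Prop) (hp : p ∈ ptrFormula I m) :
    (∀ (x : U ⊕ V → Fin m) (y : (U ⊕ V) × Fin m → Fin q), p (asgOf x y)) ∨
      ∃ c : {e : U × V // I.adj e.1 e.2} × Fin m × Fin m,
        ∀ (x : U ⊕ V → Fin m) (y : (U ⊕ V) × Fin m → Fin q),
          (c ∉ hx (gameG I) x ∨ c ∈ hY (gameG I) y) → p (asgOf x y) := by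
  rcases hp with ⟨w, rfl⟩ | ⟨w, a, a', hne, rfl⟩ | ⟨w, a, rfl⟩ | ⟨w, a, t, t', hne, rfl⟩ |
    ⟨u, v, a, b, t, t', huv, hne, rfl⟩
  · exact Or.inl fun x y => ⟨x w, decide_eq_true rfl⟩
  · left
    intro x y
    by_cases h0 : x w = a
    · right
      exact decide_eq_false fun h1 => hne (h0.symm.trans h1)
    · left
      exact decide_eq_false h0
  · exact Or.inl fun x y => ⟨y (w, a), decide_eq_true rfl⟩
  · left
    intro x y
    by_cases h0 : y (w, a) = t
    · right
      exact decide_eq_false fun h1 => hne (h0.symm.trans h1)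
    · left
      exact decide_eq_false h0
  · right
    refine ⟨(⟨(u, v), huv⟩, a, b), fun x y h => ?_⟩
    by_cases h1 : x (Sum.inl u) = a
    · by_cases h2 : x (Sum.inr v) = b
      · rcases h with h | h
        · exfalso
          apply h
          exact mem_hx.2 ⟨h1.symm, h2.symm⟩
        · have h6 : I.map u v (y (Sum.inl u, a)) = y (Sum.inr v, b) := mem_hY.1 h
          by_cases h7 : y (Sum.inl u, a) = t
          · right; right; right
            refine decide_eq_false fun h8 => hne ?_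
            have h9 : y (Sum.inr v, b) = t' := h8
            rw [← h7, ← h9, h6]
          · right; right; left
            exact decide_eq_false h7
      · right; left
        exact decide_eq_false h2
    · left
      exact decide_eq_false h1

end

/-- exponential growth -/
theorem pow_le_two : ∃ N0 : ℕ, ∀ n : ℕ, N0 ≤ n → 16 * n ^ 11 ≤ 2 ^ n := by
  have h := tendsto_pow_const_div_const_pow_of_one_lt 11 (r := (2 : ℝ)) (by norm_num)
  have h1 := (h.eventually (gt_mem_nhds (show (0 : ℝ) < 1 / 16 by norm_num)))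
  obtain ⟨N0, hN0⟩ := Filter.eventually_atTop.1 h1
  refine ⟨N0, fun n hn => ?_⟩
  have h2 := hN0 n hn
  rw [div_lt_div_iff₀ (by positivity) (by norm_num)] at h2
  have h3 : ((16 * n ^ 11 : ℕ) : ℝ) < ((2 ^ n : ℕ) : ℝ) := by
    push_cast
    linarith
  exact (Nat.cast_lt.1 h3).le

/-- the last numerical condition -/
theorem numP (n q L : ℕ) (hn : 128 * q ≤ n) (hq : 1 ≤ q) (hL : 2 * L ≤ n)
    (h16 : 16 * n ^ 11 ≤ 2 ^ n) :
    2 ^ L * (2 * n * n ^ 9 * q + 1) ^ (2 * L) * 8 ≤ 2 ^ (n ^ 2) := by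
  have hn1 : 1 ≤ n := by omega
  have h1 : 2 * n * n ^ 9 * q + 1 ≤ n ^ 11 := by
    have e0 : 1 ≤ n ^ 10 := Nat.one_le_pow _ _ hn1
    calc 2 * n * n ^ 9 * q + 1 ≤ 2 * q * n ^ 10 + n ^ 10 := by
          have : 2 * n * n ^ 9 * q = 2 * q * n ^ 10 := by ring
          omega
      _ = (2 * q + 1) * n ^ 10 := by ring
      _ ≤ n * n ^ 10 := Nat.mul_le_mul_right _ (by omega)
      _ = n ^ 11 := by ring
  have h2 : 16 * (2 * n * n ^ 9 * q + 1) ≤ 2 ^ n := (Nat.mul_le_mul_left _ h1).trans h16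
  calc 2 ^ L * (2 * n * n ^ 9 * q + 1) ^ (2 * L) * 8
      ≤ 2 ^ n * (2 * n * n ^ 9 * q + 1) ^ n * 8 ^ n :=
        Nat.mul_le_mul (Nat.mul_le_mul (Nat.pow_le_pow_right (by norm_num) (by omega))
          (Nat.pow_le_pow_right (by omega) hL)) (Nat.le_self_pow (by omega) 8)
    _ = (16 * (2 * n * n ^ 9 * q + 1)) ^ n := by
        rw [mul_pow]
        have : (16 : ℕ) ^ n = 2 ^ n * 8 ^ n := by
          rw [← mul_pow]
          norm_num
        rw [this]
        ring
    _ ≤ (2 ^ n) ^ n := Nat.pow_le_pow_left h2 n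
    _ = 2 ^ (n ^ 2) := by rw [← pow_mul, pow_two]

/-- **Semantic proofs with split inequalities.** -/
theorem ptr_main (δ : ℝ) (hδ : 0 < δ) : ∃ (q D : ℕ) (c : ℝ) (n0 : ℕ), 0 < c ∧ ∀ n : ℕ, n0 ≤ n →
    ∃ I : TGame (Fin n) (Fin n) q, TNo δ I ∧ (∀ u, {v | I.adj u v}.ncard ≤ D) ∧
      ∀ (Line : Type) (holds : Line → Asg (Fin n) (Fin n) q (n ^ 9) → Prop)
        (f : Line → ((Fin n ⊕ Fin n) × Fin (n ^ 9) → Bool) → ℝ)
        (g : Line → (((Fin n ⊕ Fin n) × Fin (n ^ 9)) × Fin q → Bool) → ℝ),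
        (∀ L τ, holds L τ ↔ f L τ.1 ≤ g L τ.2) →
        ∀ l : List Line, Semantic holds (ptrFormula I (n ^ 9)) l →
          (∃ L ∈ l, ∀ τ, ¬ holds L τ) → (2 : ℝ) ^ (c * n) ≤ l.length := by
  obtain ⟨q, D, K, n0, hq, hK, h⟩ := exists_game δ hδ
  obtain ⟨n1, hn1⟩ := pow_le_two
  have hK' : (1 : ℝ) ≤ K := by exact_mod_cast hK
  refine ⟨q, D, 1 / (8 * K), n0 + n1 + 256 * q + 16 * K, by positivity, fun n hn => ?_⟩
  obtain ⟨I, hno, hdeg, hlc⟩ := h n (by omega)
  refine ⟨I, hno, hdeg, fun Line holds f g hh l hl hL => ?_⟩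
  obtain ⟨L0, hL0, hfalse⟩ := hL
  have hnpos : 1 ≤ n := by omega
  set L := n / (2 * K) with hLdef
  have hL1 : 2 * K * L ≤ n := Nat.mul_div_le n (2 * K)
  have hL2 : n < 2 * K * L + 2 * K := by
    have := Nat.lt_div_mul_add (a := n) (b := 2 * K) (by omega)
    rw [mul_comm] at this
    exact this
  have hL3 : 8 ≤ L := by
    rw [hLdef, Nat.le_div_iff_mul_le (by omega)]
    omega
  have hL4 : 2 * L ≤ n := by
    calc 2 * L ≤ K * (2 * L) := Nat.le_mul_of_pos_left _ hK
      _ = 2 * K * L := by ring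
      _ ≤ n := hL1
  obtain ⟨C, h0, hmono, hext, hsat⟩ := hlc (2 * L) (by
    calc K * (2 * L) = 2 * K * L := by ring
      _ ≤ n := hL1)
  let F : Local (Fin n ⊕ Fin n) (Fin q) (2 * L) :=
    { C := C
      empty := h0
      mono := hmono
      ext := fun S T ρ h1 h2 h3 => hext S T ρ h1 h2 h3 }
  have hF : ∀ S ρ, F.C S ρ → (gameG I).SatOn S ρ := by
    intro S ρ h1 e he
    obtain ⟨h2, h3⟩ := mem_ein.1 he
    exact hsat S ρ h1 _ _ h2 h3 e.2
  have : Nonempty (Fin q) := ⟨⟨0, hq⟩⟩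
  have hn9 : 1 ≤ n ^ 9 := Nat.one_le_pow _ _ hnpos
  have : Nonempty (Fin (n ^ 9)) := ⟨⟨0, hn9⟩⟩
  have key := core (gameG I) L (n ^ 2) (4 * q * n ^ 7) F hF (by omega)
    (Nat.one_le_pow _ _ hnpos) (Nat.mul_pos (by omega) (pow_pos hnpos 7))
    (by
      rw [Fintype.card_fin]
      calc 64 * L * (4 * q * n ^ 7) = 256 * q * L * n ^ 7 := by ring
        _ ≤ n * n * n ^ 7 := Nat.mul_le_mul_right _ (Nat.mul_le_mul (by omega) (by omega))
        _ = n ^ 9 := by ring)
    (by
      rw [Fintype.card_fin, Fintype.card_fin, Fintype.card_sum, Fintype.card_fin]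
      exact le_of_eq (by ring))
    (by
      rw [Fintype.card_fin, Fintype.card_fin, Fintype.card_sum, Fintype.card_fin]
      have := numP n q L (by omega) hq hL4 (hn1 n (by omega))
      calc 2 ^ L * ((n + n) * n ^ 9 * q + 1) ^ (2 * L) * 8
          = 2 ^ L * (2 * n * n ^ 9 * q + 1) ^ (2 * L) * 8 := by
            rw [two_mul n]
        _ ≤ _ := this)
    (fun L' x => f L' fun p => decide (x p.1 = p.2))
    (fun L' y => g L' fun t => decide (y t.1 = t.2)) holds (ptrFormula I (n ^ 9)) asgOf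
    (fun L' x y => hh L' (asgOf x y)) (fun p hp => ptr_axioms I p hp) hl hL0
    (fun x y hxy => hfalse (asgOf x y) ((hh L0 (asgOf x y)).2 hxy))
  -- the numbers
  have h5 : 2 ^ (L - 1) ≤ l.length := by
    have e : 2 ^ L = 2 * 2 ^ (L - 1) := by
      rw [← pow_succ']
      congr 1
      omega
    omega
  have h6 : ((2 : ℝ) ^ (L - 1)) ≤ l.length := by exact_mod_cast h5
  refine le_trans ?_ h6
  rw [← Real.rpow_natCast]
  apply Real.rpow_le_rpow_of_exponent_le (by norm_num)
  have h7 : (n : ℝ) < 2 * K * L + 2 * K := by exact_mod_cast hL2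
  have h8 : ((L - 1 : ℕ) : ℝ) = L - 1 := by
    rw [Nat.cast_sub (by omega)]
    norm_num
  have h9 : (8 : ℝ) ≤ L := by exact_mod_cast hL3
  rw [h8, one_div, ← div_eq_inv_mul, div_le_iff₀ (by positivity)]
  nlinarith [mul_le_mul_of_nonneg_left h9 (by positivity : (0 : ℝ) ≤ K)]

end Pool.Agent.L0h20.RS
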