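import Pool.Agent.H589R3.DT.Two

/-!
# Semantic proofs with inequalities, and the value-one formula with pointers (definitions)
-/

set_option autoImplicit false

open Finset

namespace Pool.Agent.L0h20.RS

open H589DT

/-- `l` is a semantic derivation (last line first) from the axioms `ax`. The lines are elements of
`Line`; `holds L τ` says that the line `L` is true for the truth assignment `τ`. Each line is implied by
one axiom or by two earlier lines. -/
inductive Semantic {Line Asg : Type} (holds : Line → Asg → Prop) (ax : Set (Asg → Prop)) :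
    List Line → Prop
  | nil : Semantic holds ax []
  | axm {l : List Line} {L : Line} {p : Asg → Prop} :
      Semantic holds ax l → p ∈ ax → (∀ τ, p τ → holds L τ) → Semantic holds ax (L :: l)
  | infer {l : List Line} {L L₁ L₂ : Line} :
      Semantic holds ax l → L₁ ∈ l → L₂ ∈ l → (∀ τ, holds L₁ τ → holds L₂ τ → holds L τ) →
      Semantic holds ax (L :: l)

/-- The truth assignments. A pointer variable `(w, a)` says that the vertex `w` points to its copy `a`
(there are `m` copies of each vertex), a label variable `((w, a), t)` says that the copy `a` of the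
vertex `w` has the label `t`. -/
abbrev Asg (U V : Type) (q m : ℕ) : Type :=
  ((U ⊕ V) × Fin m → Bool) × (((U ⊕ V) × Fin m) × Fin q → Bool)

/-- The clauses of the formula which says, with pointers, that the game `I` has value one: every vertex points to a copy
and to at most one; every copy has a label and at most one; for each edge, the labels of the copies to
which its ends point satisfy the constraint. -/
def ptrFormula {U V : Type} {q : ℕ} (I : TGame U V q) (m : ℕ) : Set (Asg U V q m → Prop) :=
  {c | (∃ w : U ⊕ V, c = fun τ => ∃ a, τ.1 (w, a) = true) ∨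
    (∃ (w : U ⊕ V) (a a' : Fin m), a ≠ a' ∧
      c = fun τ => τ.1 (w, a) = false ∨ τ.1 (w, a') = false) ∨
    (∃ (w : U ⊕ V) (a : Fin m), c = fun τ => ∃ t, τ.2 ((w, a), t) = true) ∨
    (∃ (w : U ⊕ V) (a : Fin m) (t t' : Fin q), t ≠ t' ∧
      c = fun τ => τ.2 ((w, a), t) = false ∨ τ.2 ((w, a), t') = false) ∨
    ∃ (u : U) (v : V) (a b : Fin m) (t t' : Fin q), I.adj u v ∧ I.map u v t ≠ t' ∧
      c = fun τ => τ.1 (Sum.inl u, a) = false ∨ τ.1 (Sum.inr v, b) = false ∨
        τ.2 ((Sum.inl u, a), t) = false ∨ τ.2 ((Sum.inr v, b), t') = false}

/-- A line of a cutting plane proof: the linear inequality `∑ α_x x + ∑ β_y y ≥ c` with real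
coefficients; here `x` runs over the pointer variables and `y` over the label variables. -/
structure Cut (U V : Type) (q m : ℕ) where
  /-- the coefficients of the pointer variables -/
  α : (U ⊕ V) × Fin m → ℝ
  /-- the coefficients of the label variables -/
  β : ((U ⊕ V) × Fin m) × Fin q → ℝ
  /-- the right-hand side -/
  c : ℝ

/-- the inequality is true for the assignment -/
def Cut.Holds {U V : Type} [Fintype U] [Fintype V] {q m : ℕ} (L : Cut U V q m) (τ : Asg U V q m) :
    Prop :=
  L.c ≤ (∑ x, if τ.1 x = true then L.α x else 0) + ∑ y, if τ.2 y = true then L.β y else 0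

/-- A split inequality `f (pointer variables) ≤ g (label variables)`, with arbitrary real functions `f`
and `g`, is true for the assignment. -/
def SplitHolds {U V : Type} {q m : ℕ}
    (L : ((((U ⊕ V) × Fin m → Bool) → ℝ) × ((((U ⊕ V) × Fin m) × Fin q → Bool) → ℝ)))
    (τ : Asg U V q m) : Prop :=
  L.1 τ.1 ≤ L.2 τ.2

end Pool.Agent.L0h20.RS
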